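import Mathlib

/-!
# The Fourier algebra and the second dual with the first Arens product: definitions

`G` is a locally compact group with a left Haar measure `μ`, `L²(G) = Lp ℂ 2 μ`, `lam μ s` is the left translation
`(λ(s) f)(x) = f (s⁻¹ x)`.
-/

set_option autoImplicit false
set_option linter.unusedSectionVars false
set_option linter.unusedVariables false

namespace Pool.Agent.L7h29.FA

open MeasureTheory
open scoped ENNReal InnerProductSpace

section L2

variable {G : Type*} [Group G] [TopologicalSpace G] [IsTopologicalGroup G] [MeasurableSpace G] [BorelSpace G]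
  (μ : Measure G) [μ.IsMulLeftInvariant]

/-- the left regular representation: `(λ(s) f)(x) = f (s⁻¹ x)` -/
noncomputable def lam (s : G) : Lp ℂ 2 μ →L[ℂ] Lp ℂ 2 μ :=
  (Lp.compMeasurePreservingₗᵢ ℂ (fun x => s⁻¹ * x) (measurePreserving_mul_left μ s⁻¹)).toContinuousLinearMap

/-- the coefficient function `s ↦ ⟨λ(s) ξ, η⟩` -/
noncomputable def coeff (ξ η : Lp ℂ 2 μ) (s : G) : ℂ := ⟪η, lam μ s ξ⟫_ℂ

/-- the linear span of the operators `λ(s)` -/
noncomputable def span : Submodule ℂ (Lp ℂ 2 μ →L[ℂ] Lp ℂ 2 μ) := Submodule.span ℂ (Set.range (lam μ))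

/-- the operator `∑ f(s) λ(s)` of a finitely supported function `f` -/
noncomputable def op (f : G →₀ ℂ) : Lp ℂ 2 μ →L[ℂ] Lp ℂ 2 μ := f.sum fun s c => c • lam μ s

/-- What we use of the Fourier algebra `A` of `G`; `ι a` is the function on `G` given by the element `a` of `A`. -/
structure FourierLike (A : Type*) [NonUnitalNormedCommRing A] [NormedSpace ℂ A] (ι : A → G → ℂ) : Prop where
  inj : Function.Injective ι
  add : ∀ a b s, ι (a + b) s = ι a s + ι b s
  smul : ∀ (c : ℂ) a s, ι (c • a) s = c * ι a s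
  mul : ∀ a b s, ι (a * b) s = ι a s * ι b s
  coef : ∀ ξ η : Lp ℂ 2 μ, ∃ a, ι a = coeff μ ξ η ∧ ‖a‖ ≤ ‖ξ‖ * ‖η‖
  bound : ∀ (f : G →₀ ℂ) a, ‖f.sum fun s c => c * ι a s‖ ≤ ‖op μ f‖ * ‖a‖

end L2

section Arens

variable (A : Type*) [NonUnitalNormedCommRing A] [NormedSpace ℂ A] [IsScalarTower ℂ A A] [SMulCommClass ℂ A A]

/-- The element `f · a` of the dual: `⟨f · a, b⟩ = ⟨f, a b⟩`, as a bounded bilinear map `(f, a) ↦ f · a`. -/
noncomputable def act1 : StrongDual ℂ A →L[ℂ] A →L[ℂ] StrongDual ℂ A :=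
  ((ContinuousLinearMap.compL ℂ A (A →L[ℂ] A) (StrongDual ℂ A)).flip (ContinuousLinearMap.mul ℂ A)).comp
    (ContinuousLinearMap.compL ℂ A A ℂ)

/-- The element `Ψ · f` of the dual: `⟨Ψ · f, a⟩ = ⟨Ψ, f · a⟩`, as a bounded linear map of `f`. -/
noncomputable def act2 (Ψ : StrongDual ℂ (StrongDual ℂ A)) : StrongDual ℂ A →L[ℂ] StrongDual ℂ A :=
  (ContinuousLinearMap.compL ℂ A (StrongDual ℂ A) ℂ Ψ).comp (act1 A)

variable {A} in
lemma act1_apply (f : StrongDual ℂ A) (a b : A) : act1 A f a b = f (a * b) := rfl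

variable {A} in
lemma act2_apply (Ψ : StrongDual ℂ (StrongDual ℂ A)) (f : StrongDual ℂ A) (a : A) :
    act2 A Ψ f a = Ψ (act1 A f a) := rfl

/-- The second dual of `A`, with the first Arens product `⟨Φ * Ψ, f⟩ = ⟨Φ, Ψ · f⟩` (see below). -/
def Bidual : Type _ := StrongDual ℂ (StrongDual ℂ A)

noncomputable instance : NormedAddCommGroup (Bidual A) :=
  inferInstanceAs (NormedAddCommGroup (StrongDual ℂ (StrongDual ℂ A)))

noncomputable instance : NormedSpace ℂ (Bidual A) :=
  inferInstanceAs (NormedSpace ℂ (StrongDual ℂ (StrongDual ℂ A)))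

/-- the value `⟨Φ, f⟩` -/
noncomputable def pair (Φ : Bidual A) : StrongDual ℂ (StrongDual ℂ A) := Φ

variable {A} in
/-- the first Arens product: `⟨Φ □ Ψ, f⟩ = ⟨Φ, Ψ · f⟩` -/
noncomputable def arens (Φ Ψ : Bidual A) : Bidual A := (pair A Φ).comp (act2 A (pair A Ψ))

variable {A}

lemma pair_arens (Φ Ψ : Bidual A) (f : StrongDual ℂ A) :
    pair A (arens Φ Ψ) f = pair A Φ (act2 A (pair A Ψ) f) := rfl

lemma Bidual.ext {Φ Ψ : Bidual A} (h : ∀ f, pair A Φ f = pair A Ψ f) : Φ = Ψ :=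
  ContinuousLinearMap.ext h

lemma pair_add (Φ Ψ : Bidual A) (f : StrongDual ℂ A) : pair A (Φ + Ψ) f = pair A Φ f + pair A Ψ f := rfl

lemma pair_smul (c : ℂ) (Φ : Bidual A) (f : StrongDual ℂ A) : pair A (c • Φ) f = c * pair A Φ f := rfl

lemma pair_zero (f : StrongDual ℂ A) : pair A (0 : Bidual A) f = 0 := rfl

noncomputable instance : NonUnitalRing (Bidual A) :=
  { (inferInstanceAs (AddCommGroup (Bidual A)) : AddCommGroup (Bidual A)) with
    mul := arens
    left_distrib := fun Φ Ψ Θ => Bidual.ext fun f => by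
      show pair A Φ (act2 A (pair A (Ψ + Θ)) f) = pair A Φ (act2 A (pair A Ψ) f) + pair A Φ (act2 A (pair A Θ) f)
      rw [← map_add]
      rfl
    right_distrib := fun Φ Ψ Θ => rfl
    zero_mul := fun Φ => rfl
    mul_zero := fun Φ => Bidual.ext fun f => by
      show pair A Φ (act2 A (pair A (0 : Bidual A)) f) = 0
      have : act2 A (pair A (0 : Bidual A)) f = 0 := rfl
      rw [this, map_zero]
    mul_assoc := fun Φ Ψ Θ => Bidual.ext fun f => by
      show pair A Φ (act2 A (pair A Ψ) (act2 A (pair A Θ) f)) = pair A Φ (act2 A (pair A (arens Ψ Θ)) f)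
      congr 1
      refine ContinuousLinearMap.ext fun a => ?_
      show pair A Ψ (act1 A (act2 A (pair A Θ) f) a) = pair A Ψ (act2 A (pair A Θ) (act1 A f a))
      congr 1
      refine ContinuousLinearMap.ext fun b => ?_
      show pair A Θ (act1 A f (a * b)) = pair A Θ (act1 A (act1 A f a) b)
      congr 1
      refine ContinuousLinearMap.ext fun c => ?_
      show f (a * b * c) = f (a * (b * c))
      rw [mul_assoc] }

lemma mul_eq (Φ Ψ : Bidual A) : Φ * Ψ = arens Φ Ψ := rfl

instance : IsScalarTower ℂ (Bidual A) (Bidual A) := ⟨fun c Φ Ψ => rfl⟩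

instance : SMulCommClass ℂ (Bidual A) (Bidual A) := ⟨fun c Φ Ψ => Bidual.ext fun f => by
  show c * pair A Φ (act2 A (pair A Ψ) f) = pair A Φ (act2 A (pair A (c • Ψ)) f)
  have h : act2 A (pair A (c • Ψ)) f = c • act2 A (pair A Ψ) f := rfl
  rw [h, map_smul, smul_eq_mul]⟩

/-- The Jacobson radical of an algebra `B` which need not have a unit: the elements of `B` in the Jacobson radical
of the algebra `ℂ ⊕ B` with an adjoined unit. -/
def rad (B : Type*) [NonUnitalRing B] [Module ℂ B] [IsScalarTower ℂ B B] [SMulCommClass ℂ B B] : Set B :=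
  {b : B | (b : Unitization ℂ B) ∈ Ring.jacobson (Unitization ℂ B)}

end Arens

end Pool.Agent.L7h29.FA
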