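import Pool.Agent.L7h29.FA.Defs

/-!
# Project FA: the radical of `A(G)''` is not zero for every infinite locally compact group: separable parts
-/

set_option autoImplicit false

namespace Pool.Agent.L7h29.FA

open MeasureTheory
open scoped ENNReal InnerProductSpace

universe u

/-- S_XJ (only operator theory): for an infinite discrete group `G` there are operators `X n` in the norm closure of
the linear span of the `λ(s)` (the reduced C*-algebra) with `∑ ‖X n η‖² ≤ ‖η‖²` and `‖X n‖ = 1`.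

Proof. (a) `G` has a finitely generated infinite subgroup: let `S` be a finite symmetric subset, `1 ∈ S`, generating an
infinite subgroup, `h = ∑_{s ∈ S} λ(s)`, self-adjoint. `h` is not algebraic: for a polynomial `P` of degree `d` the
coefficient `⟪δ_g, P(h) δ_1⟫` at a `g ∈ S^d \ S^(d-1)` is the leading coefficient times a positive number (`δ_g` =
normalised indicator of `{g}`, orthonormal; `S^d` grows strictly as otherwise it is a finite subgroup). So the spectrum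
of `h` is infinite (if it is finite, the product of the `X - t` over it vanishes at `h` by the functional calculus).
Take distinct points `t n` of the spectrum and continuous `g n : ℝ → [0,1]` with disjoint supports and `g n (t n) = 1`;
`X n = cfc (g n) h` (e.g. around an accumulation point `t`, `|t n - t|` decreasing fast). `∑_{n ∈ J} (X n)² = cfc (∑ (g n)²) h` has
norm `≤ 1`, `‖X n‖ ≥ g n (t n)` (`norm_apply_le_norm_cfc`), polynomials in `h` are in the span, Weierstrass.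
(b) Every finitely generated subgroup is finite: `H 0 < H 1 < ...` finite subgroups, `p n` the average of the `λ(s)`, `s ∈ H n`
(decreasing projections), `X n = p n - p (n+1)`. -/
def S_XJ : Prop := ∀ (G : Type u) [Group G] [TopologicalSpace G] [IsTopologicalGroup G] [MeasurableSpace G]
  [BorelSpace G] (μ : Measure G) [μ.IsHaarMeasure] [DiscreteTopology G] [Infinite G],
  ∃ X : ℕ → (Lp ℂ 2 μ →L[ℂ] Lp ℂ 2 μ), (∀ n, X n ∈ closure (span μ : Set (Lp ℂ 2 μ →L[ℂ] Lp ℂ 2 μ))) ∧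
    (∀ n, IsSelfAdjoint (X n)) ∧ (∀ (J : Finset ℕ) (η : Lp ℂ 2 μ), ∑ j ∈ J, ‖X j η‖ ^ 2 ≤ ‖η‖ ^ 2) ∧
    ∀ n, ∀ ε : ℝ, 0 < ε → ∃ ξ : Lp ℂ 2 μ, ‖ξ‖ = 1 ∧ 1 - ε ≤ ‖X n ξ‖

/-- S_FELL (only analysis): for every locally compact group, vectors `ξ, η ∈ L²(G)` and finitely supported `f`:
`‖∑ f(s) ⟨λ(s) ξ, η⟩ λ(s)‖ ≤ ‖ξ‖ ‖η‖ ‖∑ f(s) λ(s)‖` (Fell's absorption principle).

Proof. By density (`MemLp.exists_hasCompactSupport_eLpNorm_sub_le`) let `ξ, η` and the test vectors `ζ, ζ'` be continuous with compact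
support. `∑ f(s) ⟨λ(s) ξ, η⟩ ⟨λ(s) ζ, ζ'⟩ = ∑ f(s) ∫∫ ξ(s⁻¹ x) η̄(x) ζ(s⁻¹ y) ζ̄'(y) dx dy`, substitute `x -> y x` for fixed `y` (left
invariance), exchange the integrals (`integral_integral_swap_of_hasCompactSupport`: no σ-finiteness, no
second countability): it is `∫ ⟨(∑ f(s) λ(s)) (ξ_x ζ), η_x ζ'⟩ dx` with `ξ_x(y) = ξ(y x)`, and
`∫ ‖ξ_x ζ‖ ‖η_x ζ'‖ dx ≤ (∫∫ |ξ(y x)|² |ζ(y)|² dy dx)^(1/2) (...)^(1/2) = ‖ξ‖ ‖ζ‖ ‖η‖ ‖ζ'‖`. -/
def S_FELL : Prop := ∀ (G : Type u) [Group G] [TopologicalSpace G] [IsTopologicalGroup G] [LocallyCompactSpace G]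
  [T2Space G] [MeasurableSpace G] [BorelSpace G] (μ : Measure G) [μ.IsHaarMeasure] [μ.Regular]
  (ξ η : Lp ℂ 2 μ) (f : G →₀ ℂ),
  ‖f.sum fun s c => (c * coeff μ ξ η s) • lam μ s‖ ≤ ‖ξ‖ * ‖η‖ * ‖op μ f‖

end Pool.Agent.L7h29.FA
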